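import Mathlib

set_option autoImplicit false

namespace Pool.Agent.Results.MP_6bfc9e_al.GabrielLayers

variable {R : Type*} [Ring R] {M : Type*} [AddCommGroup M] [Module R M]

/-- Graphs of partial homomorphisms from `M` to `M`. -/
def Fn (G : Submodule R (M × M)) : Prop := ∀ y, ((0 : M), y) ∈ G → y = 0

lemma Fn.uniq {G : Submodule R (M × M)} (h : Fn G) {x y z : M} (h1 : (x, y) ∈ G)
    (h2 : (x, z) ∈ G) : y = z := by
  have := G.sub_mem h1 h2
  simp only [Prod.mk_sub_mk, sub_self] at this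
  exact sub_eq_zero.1 (h _ this)

lemma exists_max (G : Submodule R (M × M)) (h : Fn G) : ∃ G', G ≤ G' ∧ Maximal Fn G' := by
  refine zorn_le_nonempty₀ {G : Submodule R (M × M) | Fn G} ?_ G h
  intro c hc hcc y hy
  refine ⟨sSup c, ?_, fun z hz => le_sSup hz⟩
  intro z hz
  rw [Submodule.mem_sSup_of_directed ⟨y, hy⟩ hcc.directedOn] at hz
  obtain ⟨K, hK, hzK⟩ := hz
  exact hc hK z hzK

lemma ext_one {G : Submodule R (M × M)} (h : Maximal Fn G) (e w : M)
    (hw : ∀ (r : R) (y : M), (r • e, y) ∈ G → y = r • w) : (e, w) ∈ G := by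
  have hF : Fn (G ⊔ Submodule.span R {(e, w)}) := by
    intro y hy
    rw [Submodule.mem_sup] at hy
    obtain ⟨⟨a, b⟩, hab, z, hz, hsum⟩ := hy
    rw [Submodule.mem_span_singleton] at hz
    obtain ⟨r, rfl⟩ := hz
    simp only [Prod.smul_mk, Prod.mk_add_mk, Prod.mk.injEq] at hsum
    obtain ⟨h1, h2⟩ := hsum
    have ha : a = (-r) • e := by rw [neg_smul]; exact eq_neg_of_add_eq_zero_left h1
    rw [ha] at hab
    have hb := hw _ _ hab
    rw [← h2, hb, neg_smul]; simp
  have := h.2 hF le_sup_left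
  exact this ((le_sup_right : _ ≤ G ⊔ Submodule.span R {(e, w)})
    (Submodule.mem_span_singleton_self _))

/-- Elements on which every maximal partial homomorphism is defined. -/
def D (R M : Type*) [Ring R] [AddCommGroup M] [Module R M] : Submodule R M :=
  ⨅ (G : Submodule R (M × M)) (_ : Maximal Fn G), G.map (LinearMap.fst R M M)

lemma mem_D {m : M} : m ∈ D R M ↔ ∀ G : Submodule R (M × M), Maximal Fn G → ∃ y, (m, y) ∈ G := by
  simp only [D, Submodule.mem_iInf, Submodule.mem_map, LinearMap.fst_apply, Prod.exists]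
  constructor
  · intro h G hG
    obtain ⟨a, b, hab, rfl⟩ := h G hG
    exact ⟨b, hab⟩
  · intro h G hG
    obtain ⟨y, hy⟩ := h G hG
    exact ⟨m, y, hy, rfl⟩

/-- Composition of graphs. -/
def cmp (G G' : Submodule R (M × M)) : Submodule R (M × M) where
  carrier := {p | ∃ y, (p.1, y) ∈ G ∧ (y, p.2) ∈ G'}
  add_mem' := by
    rintro a b ⟨y, h1, h2⟩ ⟨z, h3, h4⟩
    exact ⟨y + z, G.add_mem h1 h3, G'.add_mem h2 h4⟩
  zero_mem' := ⟨0, G.zero_mem, G'.zero_mem⟩
  smul_mem' := by
    rintro r a ⟨y, h1, h2⟩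
    exact ⟨r • y, G.smul_mem r h1, G'.smul_mem r h2⟩

lemma D_stable {G : Submodule R (M × M)} (h : Maximal Fn G) {d e : M} (hd : d ∈ D R M)
    (hde : (d, e) ∈ G) : e ∈ D R M := by
  rw [mem_D]
  intro G' hG'
  have hC : Fn (cmp G G') := by
    rintro z ⟨y, h1, h2⟩
    have hy := h.1 y h1
    rw [hy] at h2
    exact hG'.1 z h2
  obtain ⟨G'', hle, hmax⟩ := exists_max _ hC
  obtain ⟨w, hw⟩ := mem_D.1 hd G'' hmax
  refine ⟨w, ext_one hG' e w ?_⟩
  intro r y hy
  have h1 : (r • d, y) ∈ G'' := hle ⟨r • e, G.smul_mem r hde, hy⟩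
  exact hmax.1.uniq h1 (G''.smul_mem r hw)

/-- Every endomorphism of a submodule extends: transport to graphs. -/
lemma wi_graph
    (hWI : ∀ (N : Submodule R M) (f : N →ₗ[R] N),
      ∃ g : M →ₗ[R] M, ∀ x : N, g (x : M) = ((f x : N) : M))
    {G : Submodule R (M × M)} (hG : Fn G) (Y : Submodule R M)
    (hY : ∀ y ∈ Y, ∃ z ∈ Y, (y, z) ∈ G) : ∃ t : M →ₗ[R] M, ∀ y ∈ Y, (y, t y) ∈ G := by
  choose! φ hφY hφG using hY
  let f : Y →ₗ[R] Y :=
    { toFun := fun y => ⟨φ y, hφY y y.2⟩
      map_add' := by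
        intro a b
        apply Subtype.ext
        exact hG.uniq (hφG _ (Y.add_mem a.2 b.2)) (G.add_mem (hφG _ a.2) (hφG _ b.2))
      map_smul' := by
        intro r a
        apply Subtype.ext
        exact hG.uniq (hφG _ (Y.smul_mem r a.2)) (G.smul_mem r (hφG _ a.2)) }
  obtain ⟨t, ht⟩ := hWI Y f
  refine ⟨t, fun y hy => ?_⟩
  have := ht ⟨y, hy⟩
  simp only [f, LinearMap.coe_mk, AddHom.coe_mk] at this
  rw [this]
  exact hφG y hy

/-- The graph of `G` minus the endomorphism `t`. -/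
def shear (G : Submodule R (M × M)) (t : M →ₗ[R] M) : Submodule R (M × M) where
  carrier := {p | (p.1, p.2 + t p.1) ∈ G}
  add_mem' := by
    intro a b ha hb
    have := G.add_mem ha hb
    simp only [Prod.mk_add_mk] at this
    simp only [Set.mem_ofPred_eq, Prod.fst_add, Prod.snd_add, map_add]
    convert this using 2
    abel
  zero_mem' := by
    simp only [Set.mem_ofPred_eq, Prod.fst_zero, Prod.snd_zero, map_zero, add_zero]
    exact G.zero_mem
  smul_mem' := by
    intro r a ha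
    have := G.smul_mem r ha
    simp only [Prod.smul_mk] at this
    simp only [Set.mem_ofPred_eq, Prod.smul_fst, Prod.smul_snd, map_smul]
    convert this using 2
    rw [smul_add]

lemma mem_shear {G : Submodule R (M × M)} {t : M →ₗ[R] M} {a b : M} :
    (a, b) ∈ shear G t ↔ (a, b + t a) ∈ G := Iff.rfl

/-- The submodule on which `G` and `t` agree. -/
def agr (G : Submodule R (M × M)) (t : M →ₗ[R] M) : Submodule R M where
  carrier := {x | (x, t x) ∈ G}
  add_mem' := by
    intro a b ha hb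
    simp only [Set.mem_ofPred_eq, map_add]
    exact G.add_mem ha hb
  zero_mem' := by
    simp only [Set.mem_ofPred_eq, map_zero]
    exact G.zero_mem
  smul_mem' := by
    intro r a ha
    simp only [Set.mem_ofPred_eq, map_smul]
    exact G.smul_mem r ha

lemma mem_agr {G : Submodule R (M × M)} {t : M →ₗ[R] M} {a : M} :
    a ∈ agr G t ↔ (a, t a) ∈ G := Iff.rfl

lemma soc_le_D : sSup {S : Submodule R M | IsSimpleModule R S} ≤ D R M := by
  apply sSup_le
  intro S hS m hm
  rw [mem_D]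
  intro G hG
  by_contra hcon
  have h0 : ¬ ∀ (r : R) (y : M), (r • m, y) ∈ G → y = r • (0 : M) := by
    intro h
    exact hcon ⟨0, ext_one hG m 0 h⟩
  push Not at h0
  obtain ⟨r, y, hry, hy⟩ := h0
  rw [smul_zero] at hy
  have hrm : r • m ≠ 0 := by
    intro h
    rw [h] at hry
    exact hy (hG.1 y hry)
  have hS' : IsSimpleModule R S := hS
  have hne : (⟨r • m, S.smul_mem r hm⟩ : S) ≠ 0 := by
    intro h
    exact hrm (congrArg Subtype.val h)
  have htop := IsSimpleModule.span_singleton_eq_top R hne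
  have : (⟨m, hm⟩ : S) ∈ Submodule.span R {(⟨r • m, S.smul_mem r hm⟩ : S)} := by
    rw [htop]; trivial
  rw [Submodule.mem_span_singleton] at this
  obtain ⟨s, hs⟩ := this
  have hs' : s • r • m = m := congrArg Subtype.val hs
  apply hcon
  refine ⟨s • y, ?_⟩
  have := G.smul_mem s hry
  simp only [Prod.smul_mk] at this
  rwa [hs'] at this


/-- `GabrielInterval A B` says that the subfactor `B / A` of `M` has Gabriel dimension: it is the
least property of pairs `A ≤ B` such that it holds for `(A, B)` as soon as one can choose, in every nonzero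
subfactor `Y / X` of `B / A` (`A ≤ X < Y ≤ B`), a nonzero submodule `U X Y / X` all of whose
proper quotients `U X Y / V` (`X < V ≤ U X Y`) have the property. -/
inductive GabrielInterval {R M : Type*} [Ring R] [AddCommGroup M] [Module R M] :
    Submodule R M → Submodule R M → Prop
  | intro (A B : Submodule R M) (h0 : A ≤ B)
      (U : Submodule R M → Submodule R M → Submodule R M)
      (h1 : ∀ X Y, A ≤ X → X < Y → Y ≤ B → X < U X Y ∧ U X Y ≤ Y)
      (h2 : ∀ X Y V, A ≤ X → X < Y → Y ≤ B → X < V → V ≤ U X Y → GabrielInterval V (U X Y)) :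
      GabrielInterval A B

/-- Values of the partial homomorphism `G` on `U`. -/
def img (G : Submodule R (M × M)) (U : Submodule R M) : Submodule R M where
  carrier := {y | ∃ u ∈ U, (u, y) ∈ G}
  add_mem' := by
    rintro a b ⟨u, hu, h1⟩ ⟨v, hv, h2⟩
    exact ⟨u + v, U.add_mem hu hv, G.add_mem h1 h2⟩
  zero_mem' := ⟨0, U.zero_mem, G.zero_mem⟩
  smul_mem' := by
    rintro r a ⟨u, hu, h1⟩
    exact ⟨r • u, U.smul_mem r hu, G.smul_mem r h1⟩

/-- Elements of `U` that the partial homomorphism `G` maps into `E`. -/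
def pre (G : Submodule R (M × M)) (U E : Submodule R M) : Submodule R M where
  carrier := {u | u ∈ U ∧ ∃ y ∈ E, (u, y) ∈ G}
  add_mem' := by
    rintro a b ⟨hu, y, hy, h1⟩ ⟨hv, z, hz, h2⟩
    exact ⟨U.add_mem hu hv, y + z, E.add_mem hy hz, G.add_mem h1 h2⟩
  zero_mem' := ⟨U.zero_mem, 0, E.zero_mem, G.zero_mem⟩
  smul_mem' := by
    rintro r a ⟨hu, y, hy, h1⟩
    exact ⟨U.smul_mem r hu, r • y, E.smul_mem r hy, G.smul_mem r h1⟩

lemma mem_img {G : Submodule R (M × M)} {U : Submodule R M} {y : M} :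
    y ∈ img G U ↔ ∃ u ∈ U, (u, y) ∈ G := Iff.rfl

lemma mem_pre {G : Submodule R (M × M)} {U E : Submodule R M} {u : M} :
    u ∈ pre G U E ↔ u ∈ U ∧ ∃ y ∈ E, (u, y) ∈ G := Iff.rfl

lemma shear_fn {G : Submodule R (M × M)} (h : Fn G) (t : M →ₗ[R] M) : Fn (shear G t) := by
  intro z hz
  rw [mem_shear, map_zero, add_zero] at hz
  exact h z hz

/-- The partial homomorphism `H` maps every element of `U` into `D`, provided it kills `A`. -/
def Good (A U : Submodule R M) : Prop :=
  ∀ H : Submodule R (M × M), Fn H → (∀ a ∈ A, (a, (0 : M)) ∈ H) →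
    ∀ u ∈ U, ∀ y, (u, y) ∈ H → y ∈ D R M

lemma le_D_of_agree {V : Submodule R M}
    (h : ∀ G : Submodule R (M × M), Maximal Fn G →
      ∃ t : M →ₗ[R] M, ∀ v ∈ V, ∀ y, (v, y) ∈ G → y = t v) : V ≤ D R M := by
  intro m hm
  rw [mem_D]
  intro G hG
  obtain ⟨t, ht⟩ := h G hG
  refine ⟨t m, ext_one hG m (t m) ?_⟩
  intro r y hy
  rw [ht _ (V.smul_mem r hm) y hy, map_smul]

lemma exists_t₀
    (hWI : ∀ (N : Submodule R M) (f : N →ₗ[R] N),
      ∃ g : M →ₗ[R] M, ∀ x : N, g (x : M) = ((f x : N) : M))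
    {G : Submodule R (M × M)} (hG : Maximal Fn G) :
    ∃ t : M →ₗ[R] M, D R M ≤ agr G t := by
  obtain ⟨t, ht⟩ := wi_graph hWI hG.1 (D R M) (by
    intro d hd
    obtain ⟨e, he⟩ := mem_D.1 hd G hG
    exact ⟨e, D_stable hG hd he, he⟩)
  exact ⟨t, ht⟩

lemma le_D_of_good
    (hWI : ∀ (N : Submodule R M) (f : N →ₗ[R] N),
      ∃ g : M →ₗ[R] M, ∀ x : N, g (x : M) = ((f x : N) : M))
    {V : Submodule R M} (hDV : D R M ≤ V) (h : Good (D R M) V) : V ≤ D R M := by
  apply le_D_of_agree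
  intro G hG
  obtain ⟨t₀, ht₀⟩ := exists_t₀ hWI hG
  have hF := shear_fn hG.1 t₀
  have hk : ∀ a ∈ D R M, (a, (0 : M)) ∈ shear G t₀ := by
    intro a ha
    rw [mem_shear, zero_add]
    exact ht₀ ha
  obtain ⟨t₁, ht₁⟩ := wi_graph hWI hF (pre (shear G t₀) V ⊤) (by
    rintro v ⟨hv, y, -, hy⟩
    have hyD := h _ hF hk v hv y hy
    exact ⟨y, ⟨hDV hyD, 0, trivial, hk y hyD⟩, hy⟩)
  refine ⟨t₁ + t₀, ?_⟩
  intro v hv y hy
  have h1 : (v, y - t₀ v) ∈ shear G t₀ := by
    rw [mem_shear, sub_add_cancel]; exact hy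
  have h2 := ht₁ v ⟨hv, _, trivial, h1⟩
  have h3 := hF.uniq h1 h2
  rw [LinearMap.add_apply, ← h3, sub_add_cancel]

lemma exists_simple
    (hsoc : ∀ K : Submodule R M, K ≠ ⊥ →
      K ⊓ sSup {S : Submodule R M | IsSimpleModule R S} ≠ ⊥) {K : Submodule R M} (hK : K ≠ ⊥) :
    ∃ S : Submodule R M, IsSimpleModule R S ∧ S ≤ K := by
  have h0 := hsoc K hK
  have hss : IsSemisimpleModule R ↥(sSup {S : Submodule R M | IsSimpleModule R S}) := by
    rw [sSup_eq_iSup]
    apply isSemisimpleModule_biSup_of_isSemisimpleModule_submodule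
    intro S hS
    have : IsSimpleModule R S := hS
    infer_instance
  have hss' : IsSemisimpleModule R ↥(K ⊓ sSup {S : Submodule R M | IsSimpleModule R S}) :=
    IsSemisimpleModule.of_injective (Submodule.inclusion inf_le_right)
      (Submodule.inclusion_injective _)
  have hnt : Nontrivial ↥(K ⊓ sSup {S : Submodule R M | IsSimpleModule R S}) :=
    Submodule.nontrivial_iff_ne_bot.2 h0
  obtain ⟨m, hm⟩ := IsSemisimpleModule.exists_simple_submodule R
    ↥(K ⊓ sSup {S : Submodule R M | IsSimpleModule R S})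
  refine ⟨m.map (Submodule.subtype _), ?_, ?_⟩
  · exact IsSimpleModule.congr (Submodule.equivSubtypeMap _ m).symm
  · exact (Submodule.map_subtype_le _ m).trans inf_le_left

/-- One step of the induction: a subfactor `U / Z` all of whose proper quotients are already
handled, seen through a partial homomorphism. -/
lemma good_of_step
    (hsoc : ∀ K : Submodule R M, K ≠ ⊥ →
      K ⊓ sSup {S : Submodule R M | IsSimpleModule R S} ≠ ⊥)
    {Z U : Submodule R M} (hZU : Z < U)
    (hU : ∀ V, Z < V → V ≤ U → Good V U) :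
    ∃ U', Z < U' ∧ U' ≤ U ∧ Good Z U' := by
  by_cases hs : ∃ Y, Z ⋖ Y ∧ Y ≤ U
  · obtain ⟨Y, hY, hYU⟩ := hs
    refine ⟨Y, hY.lt, hYU, ?_⟩
    intro H hH hk u hu y hy
    by_cases hy0 : y = 0
    · rw [hy0]; exact (D R M).zero_mem
    -- the image of `Y` under `H` is simple
    obtain ⟨S, hS, hSle⟩ := exists_simple hsoc (K := Submodule.span R {y})
      (by rwa [Ne, Submodule.span_singleton_eq_bot])
    have hdom : pre H Y S = Y ∨ pre H Y S = Z := by
      have h1 : Z ≤ pre H Y S := fun z hz => ⟨hY.le hz, 0, S.zero_mem, hk z hz⟩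
      have h2 : pre H Y S ≤ Y := fun z hz => hz.1
      rcases hY.eq_or_eq h1 h2 with h | h
      · exact Or.inr h
      · exact Or.inl h
    have hne : pre H Y S ≠ Z := by
      intro h
      have : Nontrivial S := IsSimpleModule.nontrivial R S
      obtain ⟨s, hs0⟩ := exists_ne (0 : S)
      obtain ⟨r, hr⟩ := Submodule.mem_span_singleton.1 (hSle s.2)
      have h3 : r • u ∈ pre H Y S := ⟨Y.smul_mem r hu, r • y, hr ▸ s.2, H.smul_mem r hy⟩
      rw [h] at h3
      have h4 := hH.uniq (H.smul_mem r hy) (hk _ h3)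
      apply hs0
      apply Subtype.ext
      change (s : M) = 0
      rw [← hr]; exact h4
    have heq : pre H Y S = Y := hdom.resolve_right hne
    rw [← heq] at hu
    obtain ⟨-, z, hz, hzH⟩ := hu
    rw [hH.uniq hy hzH]
    exact soc_le_D (le_sSup (show S ∈ {S : Submodule R M | IsSimpleModule R S} from hS) hz)
  · refine ⟨U, hZU, le_rfl, ?_⟩
    intro H hH hk u hu y hy
    have hZK : Z ≤ pre H U ⊥ := fun z hz => ⟨hZU.le hz, 0, Submodule.zero_mem _, hk z hz⟩
    have hKk : ∀ a ∈ pre H U ⊥, (a, (0 : M)) ∈ H := by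
      rintro a ⟨-, b, hb, hab⟩
      rw [Submodule.mem_bot] at hb
      rwa [hb] at hab
    rcases hZK.eq_or_lt with hZK | hZK
    · -- `H` is injective on `U / Z`
      by_contra hyD
      apply hs
      have hI : img H U ≠ ⊥ := by
        intro h
        apply hyD
        have : y ∈ img H U := ⟨u, hu, hy⟩
        rw [h, Submodule.mem_bot] at this
        rw [this]; exact (D R M).zero_mem
      obtain ⟨S, hS, hSle⟩ := exists_simple hsoc hI
      refine ⟨pre H U S, ?_, fun z hz => hz.1⟩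
      have hZS : Z ≤ pre H U S := fun z hz => ⟨hZU.le hz, 0, S.zero_mem, hk z hz⟩
      refine ⟨lt_of_le_of_ne hZS ?_, ?_⟩
      · intro h
        have : Nontrivial S := IsSimpleModule.nontrivial R S
        obtain ⟨s, hs0⟩ := exists_ne (0 : S)
        obtain ⟨v, hv, hvs⟩ := hSle s.2
        have h3 : v ∈ pre H U S := ⟨hv, s, s.2, hvs⟩
        rw [← h] at h3
        have h4 := hH.uniq hvs (hk _ h3)
        exact hs0 (Subtype.ext h4)
      · intro W hZW hWS
        obtain ⟨w, hwW, hwZ⟩ := SetLike.exists_of_lt hZW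
        obtain ⟨v, hvS, hvW⟩ := SetLike.exists_of_lt hWS
        obtain ⟨hwU, a, haS, hwa⟩ := hWS.le hwW
        obtain ⟨hvU, b, hbS, hvb⟩ := hvS
        have ha0 : (⟨a, haS⟩ : S) ≠ 0 := by
          intro h
          apply hwZ
          rw [hZK]
          refine ⟨hwU, a, ?_, hwa⟩
          rw [Submodule.mem_bot]; exact congrArg Subtype.val h
        have htop := IsSimpleModule.span_singleton_eq_top R ha0
        have hmem : (⟨b, hbS⟩ : S) ∈ Submodule.span R {(⟨a, haS⟩ : S)} := by rw [htop]; trivial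
        obtain ⟨r, hr⟩ := Submodule.mem_span_singleton.1 hmem
        have hr' : r • a = b := congrArg Subtype.val hr
        have h5 : (v - r • w, (0 : M)) ∈ H := by
          have := H.sub_mem hvb (H.smul_mem r hwa)
          simpa [hr'] using this
        have h6 : v - r • w ∈ Z := by
          rw [hZK]
          exact ⟨U.sub_mem hvU (U.smul_mem r hwU), 0, Submodule.zero_mem _, h5⟩
        apply hvW
        have := W.add_mem (hZW.le h6) (W.smul_mem r hwW)
        simpa using this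
    · exact hU _ hZK (fun z hz => hz.1) H hH hKk u hu y hy

lemma good_of_gabriel
    (hWI : ∀ (N : Submodule R M) (f : N →ₗ[R] N),
      ∃ g : M →ₗ[R] M, ∀ x : N, g (x : M) = ((f x : N) : M))
    (hsoc : ∀ K : Submodule R M, K ≠ ⊥ →
      K ⊓ sSup {S : Submodule R M | IsSimpleModule R S} ≠ ⊥)
    {A B : Submodule R M} (h : GabrielInterval A B) : Good A B := by
  induction h with
  | intro A B hAB U h1 h2 ih =>
    intro H hH hk
    by_contra hcon
    push Not at hcon
    obtain ⟨b, hb, y, hy, hyD⟩ := hcon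
    have hAZ : A ≤ pre H B (D R M) := fun a ha => ⟨hAB ha, 0, (D R M).zero_mem, hk a ha⟩
    have hZY : pre H B (D R M) < pre H B ⊤ := by
      refine lt_of_le_of_ne (fun z hz => ⟨hz.1, hz.2.choose, trivial, hz.2.choose_spec.2⟩) ?_
      intro h
      have : b ∈ pre H B ⊤ := ⟨hb, y, trivial, hy⟩
      rw [← h] at this
      obtain ⟨-, z, hz, hbz⟩ := this
      exact hyD (hH.uniq hy hbz ▸ hz)
    have hYB : pre H B ⊤ ≤ B := fun z hz => hz.1
    obtain ⟨hU1, hU2⟩ := h1 _ _ hAZ hZY hYB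
    obtain ⟨U', hZU', hU'U, hgood⟩ := good_of_step hsoc hU1
      (fun V hV hVU => ih _ _ V hAZ hZY hYB hV hVU)
    -- the submodule `H(U') + D` is contained in `D`
    have hle : img H U' ⊔ D R M ≤ D R M := by
      apply le_D_of_good hWI le_sup_right
      intro H' hH' hk' v hv z hz
      rw [Submodule.mem_sup] at hv
      obtain ⟨c, ⟨u, hu, huc⟩, d, hd, rfl⟩ := hv
      have hcz : (c, z) ∈ H' := by
        have := H'.sub_mem hz (hk' d hd)
        simpa using this
      have hC : Fn (cmp H H') := by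
        rintro w ⟨y, h1, h2⟩
        have hy := hH y h1
        rw [hy] at h2
        exact hH' w h2
      refine hgood (cmp H H') hC ?_ u hu z ⟨c, huc, hcz⟩
      rintro a ⟨-, e, he, hae⟩
      exact ⟨e, hae, hk' e he⟩
    obtain ⟨w, hwU, hwZ⟩ := SetLike.exists_of_lt hZU'
    obtain ⟨hwB, e, -, hwe⟩ := hU2 (hU'U hwU)
    apply hwZ
    exact ⟨hwB, e, hle ((le_sup_left : img H U' ≤ _) ⟨w, hwU, hwe⟩), hwe⟩

/-- If every submodule between `D` and `V` is fully invariant in `M`, then `V ≤ D`. -/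
lemma le_D_of_invariant
    (hWI : ∀ (N : Submodule R M) (f : N →ₗ[R] N),
      ∃ g : M →ₗ[R] M, ∀ x : N, g (x : M) = ((f x : N) : M))
    (hsoc : ∀ K : Submodule R M, K ≠ ⊥ →
      K ⊓ sSup {S : Submodule R M | IsSimpleModule R S} ≠ ⊥)
    {V : Submodule R M} (hDV : D R M ≤ V)
    (hV : ∀ X, D R M ≤ X → X ≤ V → ∀ g : M →ₗ[R] M, X.map g ≤ X) : V ≤ D R M := by
  apply le_D_of_agree
  intro G hG
  -- submodules on which `G` agrees with a global endomorphism
  let P : Set (Submodule R M) :=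
    {X | D R M ≤ X ∧ X ≤ V ∧ ∃ t : M →ₗ[R] M, X ≤ agr G t}
  obtain ⟨t₀, ht₀⟩ := exists_t₀ hWI hG
  obtain ⟨X, hX0, hXmax⟩ := zorn_le_nonempty₀ P (by
    intro c hc hcc Y hY
    refine ⟨sSup c, ⟨?_, ?_, ?_⟩, fun z hz => le_sSup hz⟩
    · exact (hc hY).1.trans (le_sSup hY)
    · exact sSup_le fun Z hZ => (hc hZ).2.1
    · obtain ⟨t, ht⟩ := wi_graph hWI hG.1 (sSup c) (by
        intro y hy
        rw [Submodule.mem_sSup_of_directed ⟨Y, hY⟩ hcc.directedOn] at hy
        obtain ⟨Z, hZ, hyZ⟩ := hy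
        obtain ⟨h1, h2, t, ht⟩ := hc hZ
        exact ⟨t y, (le_sSup hZ : Z ≤ _) (hV Z h1 h2 t ⟨y, hyZ, rfl⟩), ht hyZ⟩)
      exact ⟨t, ht⟩) (D R M) ⟨le_rfl, hDV, t₀, ht₀⟩
  obtain ⟨⟨h1, h2, t, ht⟩, hmax⟩ := hXmax
  refine ⟨t, ?_⟩
  intro v hv y hy
  by_contra hne
  have hv' : Submodule.span R {y - t v} ≠ ⊥ := by
    rw [Ne, Submodule.span_singleton_eq_bot]
    exact sub_ne_zero.2 hne
  have h3 := hsoc _ hv'
  rw [Submodule.ne_bot_iff] at h3
  obtain ⟨w, ⟨hw1, hw2⟩, hw0⟩ := h3
  obtain ⟨s, hs⟩ := Submodule.mem_span_singleton.1 hw1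
  have hwD : w ∈ D R M := soc_le_D hw2
  have hxG : (s • v, s • y) ∈ G := G.smul_mem s hy
  have hsy : s • y = w + t (s • v) := by
    rw [← hs, map_smul, smul_sub]; abel
  obtain ⟨t', ht'⟩ := wi_graph hWI (shear_fn hG.1 t)
    (X ⊔ Submodule.span R {s • v}) (by
      intro a ha
      rw [Submodule.mem_sup] at ha
      obtain ⟨b, hb, c, hc, rfl⟩ := ha
      obtain ⟨u, rfl⟩ := Submodule.mem_span_singleton.1 hc
      refine ⟨u • w, ?_, ?_⟩
      · exact (le_sup_left : X ≤ _) (h1 (Submodule.smul_mem _ u hwD))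
      · rw [mem_shear]
        have h4 := G.add_mem (mem_agr.1 (ht hb)) (G.smul_mem u hxG)
        simp only [Prod.smul_mk, Prod.mk_add_mk] at h4
        rw [hsy] at h4
        convert h4 using 2
        rw [map_add, LinearMap.map_smul, smul_add]; abel)
  have hle : X ⊔ Submodule.span R {s • v} ≤ agr G (t' + t) := by
    intro a ha
    rw [mem_agr, LinearMap.add_apply]
    exact mem_shear.1 (ht' a ha)
  have hle2 : X ⊔ Submodule.span R {s • v} ≤ X := by
    apply hmax ⟨h1.trans le_sup_left, ?_, t' + t, hle⟩ le_sup_left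
    apply sup_le h2
    rw [Submodule.span_singleton_le_iff_mem]
    exact V.smul_mem s hv
  have hmem : s • v ∈ X :=
    hle2 ((le_sup_right : Submodule.span R {s • v} ≤ _) (Submodule.mem_span_singleton_self _))
  have h5 := hG.1.uniq hxG (mem_agr.1 (ht hmem))
  rw [hsy] at h5
  exact hw0 (by simpa using h5)

lemma gabriel_of_noetherian {A B : Submodule R M} (hAB : A ≤ B)
    (h : WellFoundedGT (Set.Icc A B)) : GabrielInterval A B := by
  have key : ∀ C : Set.Icc A B, ∀ E : Submodule R M, (C : Submodule R M) ≤ E → E ≤ B →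
      GabrielInterval (C : Submodule R M) E := by
    intro C
    induction C using WellFoundedGT.induction with
    | ind C ih =>
      intro E hCE hEB
      refine GabrielInterval.intro _ _ hCE (fun _ Y => Y) (fun X Y _ hXY _ => ⟨hXY, le_rfl⟩) ?_
      intro X Y V hCX hXY hYE hXV hVY
      have hCV : (C : Submodule R M) < V := lt_of_le_of_lt hCX hXV
      exact ih ⟨V, C.2.1.trans hCV.le, hVY.trans (hYE.trans hEB)⟩ hCV Y hVY (hYE.trans hEB)
  exact key ⟨A, le_rfl, hAB⟩ B hAB le_rfl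

lemma gabriel_refl (A : Submodule R M) : GabrielInterval A A := by
  refine GabrielInterval.intro _ _ le_rfl (fun _ Y => Y) ?_ ?_
  · intro X Y h1 h2 h3
    exact absurd (lt_of_le_of_lt h1 (lt_of_lt_of_le h2 h3)) (lt_irrefl _)
  · intro X Y V h1 h2 h3
    exact absurd (lt_of_le_of_lt h1 (lt_of_lt_of_le h2 h3)) (lt_irrefl _)

lemma gabriel_of_semiartinian {A B : Submodule R M} (hAB : A ≤ B)
    (h : ∀ X Y : Submodule R M, A ≤ X → X < Y → Y ≤ B → ∃ U, X ⋖ U ∧ U ≤ Y) :
    GabrielInterval A B := by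
  classical
  refine GabrielInterval.intro _ _ hAB
    (fun X Y => if hXY : A ≤ X ∧ X < Y ∧ Y ≤ B then (h X Y hXY.1 hXY.2.1 hXY.2.2).choose else Y)
    ?_ ?_
  · intro X Y h1 h2 h3
    have hc : A ≤ X ∧ X < Y ∧ Y ≤ B := ⟨h1, h2, h3⟩
    simp only [dif_pos hc]
    have := (h X Y h1 h2 h3).choose_spec
    exact ⟨this.1.lt, this.2⟩
  · intro X Y V h1 h2 h3 hXV hVU
    have hc : A ≤ X ∧ X < Y ∧ Y ≤ B := ⟨h1, h2, h3⟩
    simp only [dif_pos hc] at hVU ⊢
    have hs := (h X Y h1 h2 h3).choose_spec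
    have hV : V = (h X Y h1 h2 h3).choose := by
      rcases hs.1.eq_or_eq hXV.le hVU with h4 | h4
      · exact absurd h4 hXV.ne'
      · exact h4
    rw [← hV]
    exact gabriel_refl V

/-- (1) Let `M` be a weakly injective module with essential socle. Suppose that for every proper
fully invariant submodule `F` of `M` containing the socle there is a submodule `V > F` such that
`V / F` has Gabriel dimension, or such that all submodules between `F` and `V` are fully invariant
in `M`. Then `M` is quasi-injective.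
(2), (3) Noetherian subfactors, and subfactors all of whose nonzero subfactors contain a simple
submodule, have Gabriel dimension in the sense of `GabrielInterval`. -/
theorem result :
    (∀ (R : Type*) [Ring R] (M : Type*) [AddCommGroup M] [Module R M],
      (∀ (N : Submodule R M) (f : N →ₗ[R] N),
        ∃ g : M →ₗ[R] M, ∀ x : N, g (x : M) = ((f x : N) : M)) →
      (∀ K : Submodule R M, K ≠ ⊥ →
        K ⊓ sSup {S : Submodule R M | IsSimpleModule R S} ≠ ⊥) →
      (∀ F : Submodule R M, F ≠ ⊤ → sSup {S : Submodule R M | IsSimpleModule R S} ≤ F →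
        (∀ g : M →ₗ[R] M, F.map g ≤ F) →
        ∃ V : Submodule R M, F < V ∧
          (GabrielInterval F V ∨
            ∀ X : Submodule R M, F ≤ X → X ≤ V → ∀ g : M →ₗ[R] M, X.map g ≤ X)) →
      ∀ (N : Submodule R M) (f : N →ₗ[R] M),
        ∃ g : M →ₗ[R] M, ∀ x : N, g (x : M) = f x) ∧
    (∀ (R : Type*) [Ring R] (M : Type*) [AddCommGroup M] [Module R M] (A B : Submodule R M),
      A ≤ B → WellFoundedGT (Set.Icc A B) → GabrielInterval A B) ∧
    (∀ (R : Type*) [Ring R] (M : Type*) [AddCommGroup M] [Module R M] (A B : Submodule R M),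
      A ≤ B → (∀ X Y : Submodule R M, A ≤ X → X < Y → Y ≤ B → ∃ U, X ⋖ U ∧ U ≤ Y) →
      GabrielInterval A B) := by
  refine ⟨?_, fun R _ M _ _ A B h1 h2 => gabriel_of_noetherian h1 h2,
    fun R _ M _ _ A B h1 h2 => gabriel_of_semiartinian h1 h2⟩
  intro R _ M _ _ hWI hsoc hL
  have hDtop : D R M = ⊤ := by
    by_contra hD
    have hinv : ∀ g : M →ₗ[R] M, (D R M).map g ≤ D R M := by
      rintro g _ ⟨d, hd, rfl⟩
      have hgF : Fn (LinearMap.graph g) := by
        intro y hy
        rw [LinearMap.mem_graph_iff] at hy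
        simpa using hy
      have hgmax : Maximal Fn (LinearMap.graph g) := by
        refine ⟨hgF, ?_⟩
        rintro G' hG' hle ⟨a, b⟩ hab
        have h1 : (a, g a) ∈ G' := hle (by rw [LinearMap.mem_graph_iff])
        rw [LinearMap.mem_graph_iff]
        exact hG'.uniq hab h1
      exact D_stable hgmax hd (by rw [LinearMap.mem_graph_iff])
    obtain ⟨V, hV, h | h⟩ := hL (D R M) hD soc_le_D hinv
    · exact absurd (le_D_of_good hWI hV.le (good_of_gabriel hWI hsoc h)) (not_le_of_gt hV)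
    · exact absurd (le_D_of_invariant hWI hsoc hV.le h) (not_le_of_gt hV)
  intro N f
  let Gf : Submodule R (M × M) := (LinearMap.range (N.subtype.prod f))
  have hGf : Fn Gf := by
    rintro y ⟨x, hx⟩
    have h1 : (x : M) = 0 := congrArg Prod.fst hx
    have h2 : f x = y := congrArg Prod.snd hx
    have : x = 0 := Subtype.ext h1
    rw [← h2, this, map_zero]
  obtain ⟨G, hle, hmax⟩ := exists_max Gf hGf
  obtain ⟨g, hg⟩ := wi_graph hWI hmax.1 ⊤ (by
    intro y _
    obtain ⟨z, hz⟩ := mem_D.1 (hDtop ▸ Submodule.mem_top : y ∈ D R M) G hmax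
    exact ⟨z, trivial, hz⟩)
  refine ⟨g, fun x => ?_⟩
  exact hmax.1.uniq (hg x trivial) (hle ⟨x, rfl⟩)

end Pool.Agent.Results.MP_6bfc9e_al.GabrielLayers
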